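import Pool.Agent.Lib.MP_5d0678_co.Kernel

/-!
# The MRD criterion for the codes `C_{δ,s}` in `F_{q^8}`, all odd `q`

`F` is the field with `q` elements, `L` its extension of degree `8`.
-/

namespace Pool.Agent.Results.MP_5d0678_co.MrdCriterion

open Pool.Agent.Lib.MP_5d0678_co

/-- An `F`-linear space `C` of endomorphisms of `L` (rank metric code in `F^{n × n}`,
`n = [L : F]`) is MRD: if `d` is the minimum rank of the nonzero elements of `C`, then
`dim_F C = n (n - d + 1)`. -/
def IsMRD (F L : Type*) [Field F] [Field L] [Algebra F L] (C : Submodule F (L →ₗ[F] L)) : Prop :=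
  ∃ d : ℕ, IsLeast {r : ℕ | ∃ g ∈ C, g ≠ 0 ∧ r = Module.finrank F (LinearMap.range g)} d ∧
    Module.finrank F C = Module.finrank F L * (Module.finrank F L - d + 1)

/-- The code `C_{δ,s}`: all maps `x ↦ a x + b (x^{q^s} + δ x^{q^{4+s}})` with `a, b ∈ L`, where
`q = |F|`. -/
def code (F L : Type*) [Field F] [Fintype F] [Field L] [Algebra F L] (δ : L) (s : ℕ) :
    Submodule F (L →ₗ[F] L) where
  carrier := {g | ∃ a b : L, ∀ x : L, g x =
    a * x + b * (x ^ (Fintype.card F) ^ s + δ * x ^ (Fintype.card F) ^ (4 + s))}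
  add_mem' := by
    rintro g h ⟨a, b, hg⟩ ⟨a', b', hh⟩
    refine ⟨a + a', b + b', fun x => ?_⟩
    rw [LinearMap.add_apply, hg, hh]; ring
  zero_mem' := ⟨0, 0, fun x => by simp⟩
  smul_mem' := by
    rintro c g ⟨a, b, hg⟩
    refine ⟨algebraMap F L c * a, algebraMap F L c * b, fun x => ?_⟩
    rw [LinearMap.smul_apply, hg, Algebra.smul_def]; ring

section

variable {F L : Type*} [Field F] [Fintype F] [Field L] [Algebra F L]

/-- the map `f_{δ,s}` as a linear map -/
private noncomputable def fm (δ : L) (s : ℕ) : L →ₗ[F] L where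
  toFun x := x ^ (Fintype.card F) ^ s + δ * x ^ (Fintype.card F) ^ (4 + s)
  map_add' x y := by simp only [← frs_apply, map_add]; ring
  map_smul' c x := by
    have h : ∀ k, frs F L k (algebraMap F L c) = algebraMap F L c := by
      intro k; rw [frs_apply, ← map_pow, FiniteField.pow_card_pow]
    simp only [← frs_apply, Algebra.smul_def, map_mul, h, RingHom.id_apply]; ring

/-- the parametrisation `(a,b) ↦ a id + b f` -/
private noncomputable def par (δ : L) (s : ℕ) : (L × L) →ₗ[F] (L →ₗ[F] L) where
  toFun p := LinearMap.mulLeft F p.1 + (LinearMap.mulLeft F p.2).comp (fm δ s)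
  map_add' p p' := by
    apply LinearMap.ext; intro x
    simp [add_mul]; ring
  map_smul' c p := by
    apply LinearMap.ext; intro x
    simp

private lemma par_apply (δ : L) (s : ℕ) (p : L × L) (x : L) : par (F := F) δ s p x =
    p.1 * x + p.2 * (x ^ (Fintype.card F) ^ s + δ * x ^ (Fintype.card F) ^ (4 + s)) := rfl

private lemma range_par (δ : L) (s : ℕ) : LinearMap.range (par (F := F) δ s) = code F L δ s := by
  apply le_antisymm
  · rintro _ ⟨p, rfl⟩
    exact ⟨p.1, p.2, fun x => par_apply δ s p x⟩
  · rintro g ⟨a, b, hg⟩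
    exact ⟨(a, b), LinearMap.ext fun x => by rw [par_apply, hg]⟩

end

/-- For every odd prime power `q`, every nonzero `δ` in the field with `q^8` elements and every
`s ∈ {1,3,5,7}`, the code `C_{δ,s}` is MRD if and only if `δ^{1+q^4} = -1`. -/
theorem result (F L : Type*) [Field F] [Fintype F] [Field L] [Algebra F L]
    (hq : Odd (Fintype.card F)) (hL : Module.finrank F L = 8) (δ : L) (hδ : δ ≠ 0)
    (s : ℕ) (hs : s = 1 ∨ s = 3 ∨ s = 5 ∨ s = 7) :
    IsMRD F L (code F L δ s) ↔ δ ^ (1 + (Fintype.card F) ^ 4) = -1 := by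
  have hfd : FiniteDimensional F L := FiniteDimensional.of_finrank_pos (by omega)
  have hprod : Module.finrank F (L × L) = 16 := by
    rw [Module.finrank_prod, hL]
  constructor
  · rintro ⟨d, hd, hdim⟩
    by_contra hN
    obtain ⟨m, x, y, hx0, hxy, hx, hy⟩ := exists_kernel hq hL δ hδ s hs hN
    set g : L →ₗ[F] L := par (F := F) δ s (-m, 1) with hg
    have hgC : g ∈ code F L δ s := by
      rw [← range_par]; exact ⟨_, rfl⟩
    have hg0 : g ≠ 0 := by
      intro h
      obtain ⟨t, ht⟩ := not_scalar (F := F) hL δ m s hs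
      apply ht
      have := congrArg (fun u : L →ₗ[F] L => u t) h
      simp only [hg, par_apply, LinearMap.zero_apply] at this
      linear_combination this
    have hkx : x ∈ LinearMap.ker g := by
      rw [LinearMap.mem_ker, hg, par_apply, hx]; ring
    have hky : y ∈ LinearMap.ker g := by
      rw [LinearMap.mem_ker, hg, par_apply, hy]; ring
    have hker : 2 ≤ Module.finrank F (LinearMap.ker g) := by
      by_contra hlt
      have hle : Module.finrank F (LinearMap.ker g) ≤ 1 := by omega
      rw [finrank_le_one_iff] at hle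
      obtain ⟨v, hv⟩ := hle
      obtain ⟨c1, hc1⟩ := hv ⟨x, hkx⟩
      obtain ⟨c2, hc2⟩ := hv ⟨y, hky⟩
      have e1 : algebraMap F L c1 * (v : L) = x := by
        rw [← Algebra.smul_def]; exact congrArg Subtype.val hc1
      have e2 : algebraMap F L c2 * (v : L) = y := by
        rw [← Algebra.smul_def]; exact congrArg Subtype.val hc2
      have hc10 : algebraMap F L c1 ≠ 0 := by
        intro h; rw [h, zero_mul] at e1; exact hx0 e1.symm
      apply hxy (c2 / c1)
      rw [← e2, ← e1, map_div₀]
      field_simp
    have hrn := LinearMap.finrank_range_add_finrank_ker g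
    rw [hL] at hrn
    have hd6 : d ≤ 6 := by
      have := hd.2 ⟨g, hgC, hg0, rfl⟩
      omega
    have hle : Module.finrank F (code F L δ s) ≤ 16 := by
      rw [← range_par, ← hprod]
      exact LinearMap.finrank_range_le _
    rw [hdim, hL] at hle
    omega
  · intro hN
    -- kernels have dimension at most one
    have hker : ∀ a b : L, (a ≠ 0 ∨ b ≠ 0) →
        Module.finrank F (LinearMap.ker (par (F := F) δ s (a, b))) ≤ 1 := by
      intro a b hab
      rw [finrank_le_one_iff]
      by_cases h : ∃ x : LinearMap.ker (par (F := F) δ s (a, b)), (x : L) ≠ 0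
      · obtain ⟨x, hx0⟩ := h
        refine ⟨x, fun y => ?_⟩
        have hx := x.2
        have hy := y.2
        rw [LinearMap.mem_ker, par_apply] at hx hy
        obtain ⟨c, hc⟩ := kernel_le_one hq hL δ s hs hN a b hab x y hx0 hx hy
        refine ⟨c, Subtype.ext ?_⟩
        rw [hc, ← Algebra.smul_def]; rfl
      · push Not at h
        exact ⟨0, fun y => ⟨0, Subtype.ext (by rw [h y]; simp)⟩⟩
    have hinj : Function.Injective (par (F := F) δ s) := by
      rw [← LinearMap.ker_eq_bot, LinearMap.ker_eq_bot']
      rintro ⟨a, b⟩ hp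
      by_contra hne
      have hab : a ≠ 0 ∨ b ≠ 0 := by
        by_contra hh
        push Not at hh
        exact hne (by rw [hh.1, hh.2]; rfl)
      have h1 := hker a b hab
      rw [hp, LinearMap.ker_zero, finrank_top, hL] at h1
      omega
    have hdim : Module.finrank F (code F L δ s) = 16 := by
      rw [← range_par, LinearMap.finrank_range_of_inj hinj, hprod]
    refine ⟨7, ⟨?_, ?_⟩, by rw [hdim, hL]⟩
    · -- an element of rank seven
      refine ⟨par (F := F) δ s (-(1 + δ), 1), ?_, ?_, ?_⟩
      · rw [← range_par]; exact ⟨_, rfl⟩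
      · intro h
        have h1 : ((-(1 + δ), 1) : L × L) = 0 := hinj (by rw [h, map_zero])
        have h2 : (1 : L) = 0 := congrArg Prod.snd h1
        exact one_ne_zero h2
      · have h1 := hker (-(1 + δ)) 1 (Or.inr one_ne_zero)
        have h2 : 0 < Module.finrank F (LinearMap.ker (par (F := F) δ s (-(1 + δ), 1))) := by
          rw [Module.finrank_pos_iff_exists_ne_zero]
          refine ⟨⟨1, ?_⟩, ?_⟩
          · rw [LinearMap.mem_ker, par_apply]; simp
          · intro h
            exact one_ne_zero (congrArg Subtype.val h : (1 : L) = 0)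
        have h3 := LinearMap.finrank_range_add_finrank_ker (par (F := F) δ s (-(1 + δ), 1))
        rw [hL] at h3
        omega
    · rintro r ⟨g, hgC, hg0, rfl⟩
      rw [← range_par] at hgC
      obtain ⟨⟨a, b⟩, rfl⟩ := hgC
      have hab : a ≠ 0 ∨ b ≠ 0 := by
        by_contra hh
        push Not at hh
        apply hg0
        rw [hh.1, hh.2]
        exact map_zero _
      have h1 := hker a b hab
      have h3 := LinearMap.finrank_range_add_finrank_ker (par (F := F) δ s (a, b))
      rw [hL] at h3
      omega

end Pool.Agent.Results.MP_5d0678_co.MrdCriterion
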